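import Pool.Agent.helper74.VD.SpecA2

set_option autoImplicit false

open scoped ContDiff Topology InnerProductSpace ComplexConjugate ENNReal
open MeasureTheory Filter Set

namespace Pool.Agent.VD

open Pool.Agent.VQ (CH)

noncomputable section

variable {d : ℕ}

/-! ### The chart map -/

theorem ABMC_conn {Γ : Type} [Group Γ] [MulAction Γ (V d)] (κ : Γ) (x : V d) (hc : Continuous fun y : V d => κ • y) (C : ℝ)
    (h : ∀ v : V d, ‖v‖ ≤ 1 → C⁻¹ * ‖v‖ ≤ ‖κ⁻¹ • (κ • x + v) - x‖) (v : V d) (hv : 1 ≤ ‖v‖) :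
    C⁻¹ ≤ ‖κ⁻¹ • (κ • x + v) - x‖ := by
  obtain ⟨u, hu⟩ : ∃ u : V d, u = κ⁻¹ • (κ • x + v) - x := ⟨_, rfl⟩
  rw [← hu]
  have hcont : Continuous fun t : ℝ => ‖κ • (x + t • u) - κ • x‖ := by
    have h1 : Continuous fun t : ℝ => x + t • u := by fun_prop
    exact ((hc.comp h1).sub continuous_const).norm
  have h0 : ‖κ • (x + (0 : ℝ) • u) - κ • x‖ = 0 := by simp
  have h1 : κ • (x + (1 : ℝ) • u) - κ • x = v := by
    rw [one_smul, hu, add_sub_cancel, smul_inv_smul, add_sub_cancel_left]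
  have h2 := intermediate_value_Icc (zero_le_one : (0 : ℝ) ≤ 1) hcont.continuousOn
  have h3 : (1 : ℝ) ∈ Icc (‖κ • (x + (0 : ℝ) • u) - κ • x‖) (‖κ • (x + (1 : ℝ) • u) - κ • x‖) := by
    rw [h0, h1]
    exact ⟨zero_le_one, hv⟩
  obtain ⟨t, ht, htn⟩ := h2 h3
  have htn' : ‖κ • (x + t • u) - κ • x‖ = 1 := htn
  have h4 := h (κ • (x + t • u) - κ • x) htn'.le
  rw [add_sub_cancel, inv_smul_smul, add_sub_cancel_left, htn', mul_one, norm_smul, Real.norm_eq_abs, abs_of_nonneg ht.1] at h4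
  have h5 : t * ‖u‖ ≤ 1 * ‖u‖ := mul_le_mul_of_nonneg_right ht.2 (norm_nonneg _)
  linarith

/-! ### Derivatives -/

theorem ABMC_subc {F : Type} [NormedAddCommGroup F] [NormedSpace ℝ F] {f : V d → F} {v : V d} (hf : ContDiffAt ℝ ∞ f v) (c : F)
    {n : ℕ} (hn : n ≠ 0) : iteratedFDeriv ℝ n (fun w => f w - c) v = iteratedFDeriv ℝ n f v := by
  have h1 : ContDiffAt ℝ (n : WithTop ℕ∞) f v := hf.of_le (by exact_mod_cast le_top)
  have h := iteratedFDeriv_sub_apply (i := n) h1 (contDiffAt_const (c := c))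
  rw [iteratedFDeriv_const_of_ne hn, Pi.zero_apply, sub_zero] at h
  exact h

theorem ABMC_comp (K : ℕ) (f : V d → ℂ) (g : V d → V d) (hf : ContDiff ℝ ∞ f) (hg : ContDiff ℝ ∞ g) (v : V d) (A N D : ℝ)
    (hN : 1 ≤ N) (hA : 0 ≤ A) (hD : 1 ≤ D) (h1 : ∀ k ≤ K, ‖iteratedFDeriv ℝ k f (g v)‖ ≤ A * N ^ k)
    (h2 : ∀ k, 1 ≤ k → k ≤ K → ‖iteratedFDeriv ℝ k g v‖ ≤ D) :
    ∀ k ≤ K, ‖iteratedFDeriv ℝ k (fun v => f (g v)) v‖ ≤ (K.factorial * D ^ K * A) * N ^ k := by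
  intro k hk
  have h := norm_iteratedFDeriv_comp_le (n := k) hf hg (by exact_mod_cast le_top) v (C := A * N ^ k) (D := D)
    (fun i hi => (h1 i (hi.trans hk)).trans (mul_le_mul_of_nonneg_left (pow_le_pow_right₀ hN hi) hA))
    (fun i hi1 hi => (h2 i hi1 (hi.trans hk)).trans (le_self_pow₀ hD (by omega)))
  have e : f ∘ g = fun v => f (g v) := rfl
  rw [e] at h
  refine h.trans ?_
  have a1 : (k.factorial : ℝ) ≤ K.factorial := by exact_mod_cast Nat.factorial_le hk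
  have a2 : D ^ k ≤ D ^ K := pow_le_pow_right₀ hD hk
  have a3 : 0 ≤ A * N ^ k := by positivity
  calc (k.factorial : ℝ) * (A * N ^ k) * D ^ k ≤ (K.factorial : ℝ) * (A * N ^ k) * D ^ K := by
        refine mul_le_mul (mul_le_mul_of_nonneg_right a1 a3) a2 (by positivity) (by positivity)
    _ = _ := by ring

theorem ABMC_const (K : ℕ) (N c s : ℝ) (z : ℂ) (hN : 1 ≤ N) (hz : ‖z‖ ≤ c) : SyD K N c s (fun _ : V d => z) := by
  intro v _
  refine ⟨contDiffAt_const, ?_⟩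
  intro k _
  rcases Nat.eq_zero_or_pos k with h | h
  · subst h
    rw [norm_iteratedFDeriv_zero, pow_zero, mul_one]
    exact hz
  · rw [iteratedFDeriv_const_of_ne h.ne', Pi.zero_apply, norm_zero]
    have : 0 ≤ c := (norm_nonneg z).trans hz
    positivity

theorem ABMC_exp (hASYD : ASYD_stmt) (d K : ℕ) : ∃ C : ℝ, 1 ≤ C ∧ ∀ (N m s : ℝ) (ψ : V d → ℂ), 1 ≤ N → 0 < m → m ≤ 1 →
    1 ≤ N * m → SyD K N m s ψ → SyD K N (C * m) s (fun v => Complex.exp (ψ v) - 1) := by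
  choose Cn hCn hA hB hC using fun n : ℕ => hASYD d n
  refine ⟨2 + ∑ n ∈ Finset.range (K + 1), 3 * Cn n, ?_, ?_⟩
  · have : 0 ≤ ∑ n ∈ Finset.range (K + 1), 3 * Cn n := Finset.sum_nonneg fun n _ => by have := hCn n; linarith
    linarith
  intro N m s ψ hN hm hm1 hNm hψ v hv
  obtain ⟨hsm, hbd⟩ := hψ v hv
  have hsum0 : 0 ≤ ∑ n ∈ Finset.range (K + 1), 3 * Cn n := Finset.sum_nonneg fun n _ => by have := hCn n; linarith
  refine ⟨(Complex.contDiff_exp (𝕜 := ℝ)).contDiffAt.comp v hsm |>.sub contDiffAt_const, ?_⟩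
  intro n hn
  rcases Nat.eq_zero_or_pos n with h0 | h0
  · subst h0
    rw [norm_iteratedFDeriv_zero, pow_zero, mul_one]
    have h1 := hbd 0 (Nat.zero_le _)
    rw [norm_iteratedFDeriv_zero, pow_zero, mul_one] at h1
    have h2 := Complex.norm_exp_sub_one_le (x := ψ v) (h1.trans hm1)
    refine h2.trans ?_
    nlinarith
  · -- the exponent
    obtain ⟨N', hN'⟩ : ∃ N' : ℝ, N' = N * m ^ ((1 : ℝ) / n) := ⟨_, rfl⟩
    have hn0 : (0 : ℝ) < n := by exact_mod_cast h0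
    have hn1 : (1 : ℝ) ≤ n := by exact_mod_cast h0
    have hpow : ∀ k : ℕ, k ≤ n → m * N ^ k ≤ N' ^ k := by
      intro k hk
      rw [hN', mul_pow, ← Real.rpow_natCast (m ^ ((1 : ℝ) / n)) k, ← Real.rpow_mul hm.le]
      have e1 : m ^ (1 : ℝ) ≤ m ^ ((1 : ℝ) / n * k) := by
        refine Real.rpow_le_rpow_of_exponent_ge hm hm1 ?_
        have : (k : ℝ) ≤ n := by exact_mod_cast hk
        rw [one_div, inv_mul_le_iff₀ hn0]
        linarith
      rw [Real.rpow_one] at e1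
      have e2 : 0 ≤ N ^ k := by positivity
      calc m * N ^ k ≤ m ^ ((1 : ℝ) / n * k) * N ^ k := mul_le_mul_of_nonneg_right e1 e2
        _ = _ := by ring
    have hN'1 : 1 ≤ N' := by
      have := hpow 1 h0
      rw [pow_one, pow_one] at this
      linarith
    have hN'n : N' ^ n = m * N ^ n := by
      rw [hN', mul_pow, ← Real.rpow_natCast (m ^ ((1 : ℝ) / n)) n, ← Real.rpow_mul hm.le, one_div_mul_cancel hn0.ne', Real.rpow_one]
      ring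
    have h1 := (hB n N' s (fun v => ψ v - 1) hN'1 (by
      intro w hw
      obtain ⟨hsm', hbd'⟩ := hψ w hw
      refine ⟨hsm'.sub contDiffAt_const, ?_, ?_⟩
      · have h2 := hbd' 0 (Nat.zero_le _)
        rw [norm_iteratedFDeriv_zero, pow_zero, mul_one] at h2
        have h3 : (ψ w).re ≤ ‖ψ w‖ := Complex.re_le_norm _
        rw [Complex.sub_re, Complex.one_re]
        linarith
      · intro k hk1 hk
        rw [ABMC_subc hsm' 1 (by omega)]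
        exact (hbd' k (hk.trans hn)).trans (hpow k hk))) v hv
    obtain ⟨h2, h3⟩ := h1
    have h4 := h3 n le_rfl
    have e1 : (fun w : V d => Complex.exp (ψ w) - 1) = fun w => (Complex.exp 1 • fun w : V d => Complex.exp (ψ w - 1)) w - 1 := by
      funext w
      rw [Pi.smul_apply, smul_eq_mul, ← Complex.exp_add, add_sub_cancel]
    have h5 : ContDiffAt ℝ (n : WithTop ℕ∞) (fun w : V d => Complex.exp (ψ w - 1)) v := h2.of_le (by exact_mod_cast le_top)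
    have h5' : ContDiffAt ℝ ∞ (Complex.exp 1 • fun w : V d => Complex.exp (ψ w - 1)) v :=
      ContDiffAt.const_smul (Complex.exp 1) h2
    rw [e1, ABMC_subc h5' 1 h0.ne', iteratedFDeriv_const_smul_apply h5, norm_smul]
    have h6 : ‖Complex.exp 1‖ ≤ 3 := by
      rw [Complex.norm_exp, Complex.one_re]
      have := Real.exp_one_lt_d9
      linarith
    have h7 : 3 * Cn n ≤ ∑ n ∈ Finset.range (K + 1), 3 * Cn n :=
      Finset.single_le_sum (f := fun n => 3 * Cn n) (fun n _ => by have := hCn n; linarith) (Finset.mem_range.2 (by omega))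
    have h8 : 0 ≤ m * N ^ n := by positivity
    calc ‖Complex.exp 1‖ * ‖iteratedFDeriv ℝ n (fun w : V d => Complex.exp (ψ w - 1)) v‖ ≤ 3 * (Cn n * N' ^ n) :=
          mul_le_mul h6 h4 (norm_nonneg _) (by norm_num)
      _ = 3 * Cn n * (m * N ^ n) := by rw [hN'n]; ring
      _ ≤ (2 + ∑ n ∈ Finset.range (K + 1), 3 * Cn n) * (m * N ^ n) := mul_le_mul_of_nonneg_right (by linarith) h8
      _ = _ := by ring

/-- Symbols from real functions. -/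
theorem ABMC_real {f : V d → ℝ} {v : V d} (hf : ContDiffAt ℝ ∞ f v) :
    ContDiffAt ℝ ∞ (fun w => ((f w : ℝ) : ℂ)) v ∧ ∀ k : ℕ, ‖iteratedFDeriv ℝ k (fun w => ((f w : ℝ) : ℂ)) v‖ = ‖iteratedFDeriv ℝ k f v‖ := by
  refine ⟨Complex.ofRealCLM.contDiff.contDiffAt.comp v hf, ?_⟩
  intro k
  exact Complex.ofRealLI.norm_iteratedFDeriv_comp_left hf (by exact_mod_cast le_top)

/-- `g v - g 0` is small. -/
theorem ABMC_gsub (K : ℕ) (N C m s : ℝ) (g : V d → ℂ) (hN : 1 ≤ N) (hs : 0 ≤ s) (hC : 0 ≤ C)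
    (hg : ∀ v : V d, ‖v‖ ≤ s → ContDiffAt ℝ ∞ g v ∧ ∀ j ≤ K + 1, ‖iteratedFDeriv ℝ j g v‖ ≤ C) (h1 : C * s ≤ m) (h2 : C ≤ m * N) :
    SyD K N m s (fun v => g v - g 0) := by
  have hm : 0 ≤ m := (mul_nonneg hC hs).trans h1
  intro v hv
  refine ⟨(hg v hv).1.sub contDiffAt_const, ?_⟩
  intro k hk
  rcases Nat.eq_zero_or_pos k with h | h
  · subst h
    rw [norm_iteratedFDeriv_zero, pow_zero, mul_one]
    have h3 := Convex.norm_image_sub_le_of_norm_fderiv_le (𝕜 := ℝ) (f := g) (C := C) (s := Metric.closedBall (0 : V d) s) (x := 0) (y := v)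
      (fun w hw => ((hg w (by simpa using hw)).1.differentiableAt (by simp)))
      (fun w hw => by
        have h4 := (hg w (by simpa using hw)).2 1 (by omega)
        rw [norm_iteratedFDeriv_one] at h4
        exact h4) (convex_closedBall _ _) (by simpa using hs) (by simpa using hv)
    rw [sub_zero] at h3
    exact (h3.trans (mul_le_mul_of_nonneg_left hv hC)).trans h1
  · rw [ABMC_subc (hg v hv).1 _ h.ne']
    refine ((hg v hv).2 k (by omega)).trans (h2.trans ?_)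
    exact mul_le_mul_of_nonneg_left (le_self_pow₀ hN h.ne') hm

/-- The remainder of the phase. -/
theorem ABMC_rk (K : ℕ) (N C' m s R : ℝ) (ρ : V d → ℂ) (hs : 0 < s) (hs1 : s ≤ 1) (hNs : 1 ≤ N * s) (hR : 0 ≤ R) (hC' : 0 ≤ C')
    (h : ∀ v : V d, ‖v‖ ≤ s → ContDiffAt ℝ ∞ ρ v ∧ (∀ j ≤ 3, ‖iteratedFDeriv ℝ j ρ v‖ ≤ C' * ‖v‖ ^ (3 - j)) ∧
      ∀ j ≤ K, ‖iteratedFDeriv ℝ j ρ v‖ ≤ C') (hm : R * C' * s ^ 3 ≤ m) :
    SyD K N m s (fun v => Complex.I * (R : ℂ) * ρ v) := by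
  intro v hv
  obtain ⟨h1, h2, h3⟩ := h v hv
  refine ⟨contDiffAt_const.mul h1, ?_⟩
  intro k hk
  have e : (fun v => Complex.I * (R : ℂ) * ρ v) = (Complex.I * (R : ℂ)) • ρ := by
    funext w
    rw [Pi.smul_apply, smul_eq_mul]
  have h4 : ContDiffAt ℝ (k : WithTop ℕ∞) ρ v := h1.of_le (by exact_mod_cast le_top)
  rw [e, iteratedFDeriv_const_smul_apply h4, norm_smul]
  have h5 : ‖Complex.I * (R : ℂ)‖ = R := by
    rw [norm_mul, Complex.norm_I, one_mul, Complex.norm_real, Real.norm_eq_abs, abs_of_nonneg hR]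
  rw [h5]
  have hN0 : 0 < N := by
    by_contra hc
    have : N * s ≤ 0 := mul_nonpos_of_nonpos_of_nonneg (not_lt.1 hc) hs.le
    linarith
  have h6 : ‖iteratedFDeriv ℝ k ρ v‖ ≤ C' * s ^ 3 * N ^ k := by
    by_cases hk3 : k ≤ 3
    · refine (h2 k hk3).trans ?_
      have a1 : ‖v‖ ^ (3 - k) ≤ s ^ (3 - k) := pow_le_pow_left₀ (norm_nonneg _) hv _
      have a2 : s ^ (3 - k) ≤ s ^ 3 * N ^ k := by
        have a3 : s ^ 3 = s ^ (3 - k) * s ^ k := by rw [← pow_add, Nat.sub_add_cancel hk3]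
        have a4 : 1 ≤ (N * s) ^ k := one_le_pow₀ hNs
        have a5 : 0 < s ^ (3 - k) := by positivity
        calc s ^ (3 - k) = s ^ (3 - k) * 1 := by ring
          _ ≤ s ^ (3 - k) * (N * s) ^ k := mul_le_mul_of_nonneg_left a4 a5.le
          _ = s ^ 3 * N ^ k := by rw [a3, mul_pow]; ring
      calc C' * ‖v‖ ^ (3 - k) ≤ C' * (s ^ 3 * N ^ k) := mul_le_mul_of_nonneg_left (a1.trans a2) hC'
        _ = _ := by ring
    · refine (h3 k hk).trans ?_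
      have hk4 : 3 ≤ k := by omega
      have a1 : 1 ≤ (N * s) ^ k := one_le_pow₀ hNs
      have a2 : s ^ k ≤ s ^ 3 := pow_le_pow_of_le_one hs.le hs1 hk4
      have a3 : 1 ≤ s ^ 3 * N ^ k := by
        rw [mul_pow] at a1
        have a4 : N ^ k * s ^ k ≤ N ^ k * s ^ 3 := mul_le_mul_of_nonneg_left a2 (by positivity)
        linarith
      calc C' = C' * 1 := by ring
        _ ≤ C' * (s ^ 3 * N ^ k) := mul_le_mul_of_nonneg_left a3 hC'
        _ = _ := by ring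
  calc R * ‖iteratedFDeriv ℝ k ρ v‖ ≤ R * (C' * s ^ 3 * N ^ k) := mul_le_mul_of_nonneg_left h6 hR
    _ = (R * C' * s ^ 3) * N ^ k := by ring
    _ ≤ m * N ^ k := mul_le_mul_of_nonneg_right hm (by positivity)

theorem ABMC_qf (M : MC d) : ContDiff ℝ ∞ (fun v : V d => qf M v) := by
  unfold qf
  refine ContDiff.sum fun i _ => ContDiff.sum fun j _ => ?_
  refine contDiff_const.mul ?_
  refine Complex.ofRealCLM.contDiff.comp ?_
  exact (EuclideanSpace.proj (𝕜 := ℝ) i).contDiff.mul (EuclideanSpace.proj (𝕜 := ℝ) j).contDiff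

/-- The product of a cut-off difference and the Gaussian factor. -/
theorem ABMC_Y (K : ℕ) (N m1 η a b : ℝ) (X E : V d → ℂ) (hN : 1 ≤ N) (hm1 : 0 ≤ m1) (hη : 0 ≤ η) (hX : ContDiff ℝ ∞ X)
    (hE : ContDiff ℝ ∞ E) (hXb : ∀ k ≤ K, ∀ v, ‖iteratedFDeriv ℝ k X v‖ ≤ m1 * N ^ k)
    (hX0 : ∀ v, ‖v‖ < a ∨ b < ‖v‖ → X v = 0) (hEb : ∀ v, a ≤ ‖v‖ → ‖v‖ ≤ b → ∀ k ≤ K, ‖iteratedFDeriv ℝ k E v‖ ≤ η) :
    ∀ k ≤ K, ∀ v, ‖iteratedFDeriv ℝ k (fun v => X v * E v) v‖ ≤ (2 ^ K * m1 * η) * N ^ k := by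
  intro k hk v
  by_cases hv : ‖v‖ < a ∨ b < ‖v‖
  · have h1 : (fun v => X v * E v) =ᶠ[𝓝 v] fun _ => (0 : ℂ) := by
      have hopen : IsOpen {v : V d | ‖v‖ < a ∨ b < ‖v‖} :=
        (isOpen_lt continuous_norm continuous_const).union (isOpen_lt continuous_const continuous_norm)
      filter_upwards [hopen.mem_nhds hv] with w hw
      rw [hX0 w hw, zero_mul]
    have h2 := (h1.iteratedFDeriv ℝ k).eq_of_nhds
    rw [h2]
    have h3 : iteratedFDeriv ℝ k (fun _ : V d => (0 : ℂ)) v = 0 := by simp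
    rw [h3, norm_zero]
    positivity
  · rw [not_or, not_lt, not_lt] at hv
    have h := norm_iteratedFDeriv_mul_le (N := ∞) hX hE v (n := k) (by exact_mod_cast le_top)
    refine h.trans ?_
    have key : ∀ i ∈ Finset.range (k + 1), (k.choose i : ℝ) * ‖iteratedFDeriv ℝ i X v‖ * ‖iteratedFDeriv ℝ (k - i) E v‖ ≤
        (k.choose i : ℝ) * (m1 * N ^ k * η) := by
      intro i hi
      have hi' : i ≤ k := by
        have := Finset.mem_range.1 hi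
        omega
      rw [mul_assoc]
      refine mul_le_mul_of_nonneg_left ?_ (Nat.cast_nonneg _)
      refine mul_le_mul ((hXb i (hi'.trans hk) v).trans ?_) (hEb v hv.1 hv.2 (k - i) ((Nat.sub_le _ _).trans hk)) (norm_nonneg _) (by positivity)
      exact mul_le_mul_of_nonneg_left (pow_le_pow_right₀ hN hi') hm1
    refine (Finset.sum_le_sum key).trans ?_
    rw [← Finset.sum_mul]
    have hs : (∑ i ∈ Finset.range (k + 1), (k.choose i : ℝ)) = 2 ^ k := by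
      have := Nat.sum_range_choose k
      exact_mod_cast this
    rw [hs]
    have h3 : (2 : ℝ) ^ k ≤ 2 ^ K := pow_le_pow_right₀ (by norm_num) hk
    have h4 : 0 ≤ m1 * N ^ k * η := by positivity
    calc (2 : ℝ) ^ k * (m1 * N ^ k * η) ≤ 2 ^ K * (m1 * N ^ k * η) := mul_le_mul_of_nonneg_right h3 h4
      _ = _ := by ring

theorem ABMC_sub {K : ℕ} {N m s s' : ℝ} {A : V d → ℂ} (h : SyD K N m s A) (hs : s' ≤ s) : SyD K N m s' A :=
  fun v hv => h v (hv.trans hs)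

theorem ABMC_mono {K : ℕ} {N m m' s : ℝ} {A : V d → ℂ} (hN : 0 ≤ N) (h : SyD K N m s A) (hm : m ≤ m') : SyD K N m' s A :=
  fun v hv => ⟨(h v hv).1, fun k hk => ((h v hv).2 k hk).trans (mul_le_mul_of_nonneg_right hm (by positivity))⟩

/-- The product symbol. -/
theorem ABMC_prod (hASYD : ASYD_stmt) (d K : ℕ) (CK : ℝ) (hCK : 1 ≤ CK) : ∃ C : ℝ, 1 ≤ C ∧
    ∀ (N μ η s : ℝ) (ψ g h E : V d → ℂ) (g0 : ℂ), 1 ≤ N → 0 < μ → μ ≤ 1 → 1 ≤ N * μ → 0 ≤ η → SyD K N μ s ψ →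
      SyD K N μ s (fun v => g v - g0) → ‖g0‖ ≤ CK → SyD K N CK s h → SyD K N η s E →
      SyD K N (C * η * μ) s (fun v => h v * (E v * ((g v - g0) * (Complex.exp (ψ v) - 1) + (g v - g0) + g0 * (Complex.exp (ψ v) - 1)))) ∧
      SyD K N C s (fun v => g0 * h v) := by
  obtain ⟨Cu, hCu, hexp⟩ := ABMC_exp hASYD d K
  obtain ⟨CS, hCS, hmul, -, -⟩ := hASYD d K
  refine ⟨max (CS * CK * (CS * (CS * Cu + 1 + CS * CK * Cu))) (CS * CK * CK), ?_, ?_⟩
  · refine le_max_of_le_right ?_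
    have h1 : 1 ≤ CS * CK := one_le_mul_of_one_le_of_one_le hCS hCK
    exact one_le_mul_of_one_le_of_one_le h1 hCK
  intro N μ η s ψ g h E g0 hN hμ hμ1 hNμ hη hψ ha hg0 hh hE
  have hN0 : 0 ≤ N := by linarith
  have hCS0 : 0 < CS := by linarith
  have hCu0 : 0 < Cu := by linarith
  have hCK0 : 0 < CK := by linarith
  have hu := hexp N μ s ψ hN hμ hμ1 hNμ hψ
  have hc := ABMC_const (d := d) K N CK s g0 hN hg0
  have h1 := (hmul N μ (Cu * μ) s _ _ hN hμ.le (by positivity) ha hu).1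
  have h2 := (hmul N (CS * μ * (Cu * μ)) μ s _ _ hN (by positivity) hμ.le h1 ha).2
  have h3 := (hmul N CK (Cu * μ) s _ _ hN hCK0.le (by positivity) hc hu).1
  have h4 := (hmul N (CS * μ * (Cu * μ) + μ) (CS * CK * (Cu * μ)) s _ _ hN (by positivity) (by positivity) h2 h3).2
  have h5 := (hmul N η _ s _ _ hN hη (by positivity) hE h4).1
  have h6 := (hmul N CK _ s _ _ hN hCK0.le (by positivity) hh h5).1
  refine ⟨ABMC_mono hN0 h6 ?_, ?_⟩
  · have e1 : CS * μ * (Cu * μ) + μ + CS * CK * (Cu * μ) ≤ (CS * Cu + 1 + CS * CK * Cu) * μ := by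
      have e2 : CS * μ * (Cu * μ) ≤ CS * Cu * μ := by
        have : CS * Cu * μ * μ ≤ CS * Cu * μ * 1 := mul_le_mul_of_nonneg_left hμ1 (by positivity)
        linarith
      linarith
    have e3 : CS * CK * (CS * η * (CS * μ * (Cu * μ) + μ + CS * CK * (Cu * μ))) ≤
        CS * CK * (CS * η * ((CS * Cu + 1 + CS * CK * Cu) * μ)) := by
      refine mul_le_mul_of_nonneg_left ?_ (by positivity)
      exact mul_le_mul_of_nonneg_left e1 (by positivity)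
    refine e3.trans ?_
    have e4 : CS * CK * (CS * η * ((CS * Cu + 1 + CS * CK * Cu) * μ)) = CS * CK * (CS * (CS * Cu + 1 + CS * CK * Cu)) * (η * μ) := by ring
    rw [e4, mul_assoc (max _ _)]
    exact mul_le_mul_of_nonneg_right (le_max_left _ _) (by positivity)
  · have h7 := (hmul N CK CK s _ _ hN hCK0.le hCK0.le hc hh).1
    exact ABMC_mono hN0 h7 (le_max_right _ _)

theorem ABMC_lag {L L' : ℝ} {Y0 P0 : MC d} (h : Lag L Y0 P0) (hL : L ≤ L') : Lag L' Y0 P0 :=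
  ⟨h.sym, h.pos, fun i j => (h.bdY i j).trans hL, fun i j => (h.bdP i j).trans hL⟩

/-- The algebraic identity. -/
theorem ABMC_id (X1 X2 g h g0 : ℝ) (ρ a b R : ℂ) :
    (((X1 * (g * h) : ℝ) : ℝ) : ℂ) * Complex.exp (Complex.I * R * (ρ + (a + b / 2))) -
      (g0 : ℂ) * ((((X2 * h : ℝ) : ℝ) : ℂ) * Complex.exp (Complex.I * R * (a + b / 2))) =
    Complex.exp (R * a * Complex.I) * ((X1 : ℂ) * ((h : ℂ) * (Complex.exp (Complex.I * R * (b / 2)) *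
      (((g : ℂ) - g0) * (Complex.exp (Complex.I * R * ρ) - 1) + ((g : ℂ) - g0) + (g0 : ℂ) * (Complex.exp (Complex.I * R * ρ) - 1)))) +
      (((X1 : ℂ) - X2) * Complex.exp (Complex.I * R * (b / 2))) * ((g0 : ℂ) * h)) := by
  have e1 : Complex.exp (Complex.I * R * (ρ + (a + b / 2))) =
      Complex.exp (R * a * Complex.I) * (Complex.exp (Complex.I * R * (b / 2)) * Complex.exp (Complex.I * R * ρ)) := by
    rw [← Complex.exp_add, ← Complex.exp_add]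
    congr 1
    ring
  have e2 : Complex.exp (Complex.I * R * (a + b / 2)) = Complex.exp (R * a * Complex.I) * Complex.exp (Complex.I * R * (b / 2)) := by
    rw [← Complex.exp_add]
    congr 1
    ring
  rw [e1, e2]
  push_cast
  ring

theorem ABMC_proof (hATKD : ATKD_stmt) (hAGSD : AGSD_stmt) (hASYD : ASYD_stmt) (hACTD : ACTD_stmt) : ABMC_stmt := by
  intro d Γ _ _ K k B r hK
  obtain ⟨C1, hC1, hT1⟩ := hATKD d Γ K k B r 0 hK
  obtain ⟨Cg, hCg, hG⟩ := hAGSD d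
  obtain ⟨CC, hCC⟩ : ∃ CC : ℝ, CC = max C1 (max (2 * Cg) 12) := ⟨_, rfl⟩
  have hCC1 : C1 ≤ CC := by rw [hCC]; exact le_max_left _ _
  have hCCg : 2 * Cg ≤ CC := by rw [hCC]; exact (le_max_left _ _).trans (le_max_right _ _)
  have hCC12 : 12 ≤ CC := by rw [hCC]; exact (le_max_right _ _).trans (le_max_right _ _)
  refine ⟨CC, by linarith, ?_⟩
  intro ch Kd e ζ ζ1 hch hRg
  obtain ⟨he, hζ, hζζ1, hCe, hCζ⟩ := hRg
  have hζ1 : 0 < ζ1 := hζ.trans_le hζζ1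
  obtain ⟨CK, hCK, hT⟩ := hATKD d Γ K k B r (Kd + 3) hK
  obtain ⟨CP, hCP, hP⟩ := ABMC_prod hASYD d Kd CK hCK
  obtain ⟨CS, hCS, -, -, hcut⟩ := hASYD d Kd
  obtain ⟨C0, hC0, hct⟩ := hACTD d ch Kd hch
  have hCg0 : 0 < Cg := by linarith
  have hCK0 : 0 < CK := by linarith
  have hCP0 : 0 < CP := by linarith
  have hCS0 : 0 < CS := by linarith
  have hC00 : 0 < C0 := by linarith
  have hg1 : Cg * (e + ζ1 / (2 * Cg)) ≤ ζ1 := by
    have h1 : Cg * (e + ζ1 / (2 * Cg)) = Cg * e + ζ1 / 2 := by field_simp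
    have h2 : 2 * Cg * e ≤ CC * e := mul_le_mul_of_nonneg_right hCCg he
    rw [h1]; linarith
  have hg2 : Cg * ζ1 ≤ 1 := by
    have h1 : Cg * ζ1 ≤ CC * ζ1 := mul_le_mul_of_nonneg_right (by linarith) hζ1.le
    linarith
  have hcc : 0 < 1 / (2 * CK) := by positivity
  have hcc1 : 1 / (2 * CK) ≤ 1 := by
    rw [div_le_one (by positivity)]; linarith
  obtain ⟨R1, hR1, hGS⟩ := hG Kd (e + ζ1 / (2 * Cg)) ζ1 (1 / (2 * CK)) 1 (by positivity) hζ1 hg1 hg2 hcc hcc1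
  obtain ⟨C1x, hC1x⟩ : ∃ C1x : ℝ, C1x = Kd.factorial * CK ^ Kd * C0 := ⟨_, rfl⟩
  have hC1x0 : 0 < C1x := by rw [hC1x]; positivity
  obtain ⟨Λ, hΛ⟩ : ∃ Λ : ℝ, Λ = 16 * CK ^ 4 + (CS * C1x * CP + CS * (2 ^ Kd * (C1x + C0)) * CP) := ⟨_, rfl⟩
  have hΛ1 : 16 * CK ^ 4 ≤ Λ := by
    rw [hΛ]
    have : 0 ≤ CS * C1x * CP + CS * (2 ^ Kd * (C1x + C0)) * CP := by positivity
    linarith
  have hΛ2 : CS * C1x * CP + CS * (2 ^ Kd * (C1x + C0)) * CP ≤ Λ := by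
    rw [hΛ]
    have : 0 ≤ 16 * CK ^ 4 := by positivity
    linarith
  obtain ⟨R2, hR2⟩ : ∃ R2 : ℝ, ∀ R, R2 ≤ R → Λ ≤ R ^ (ζ1 / (2 * Cg)) := by
    have h1 := (tendsto_rpow_atTop (show 0 < ζ1 / (2 * Cg) by positivity)).eventually (eventually_ge_atTop Λ)
    exact eventually_atTop.1 h1
  refine ⟨max R1 R2, hR1.trans (le_max_left _ _), ?_⟩
  intro R G κ q Y0 P0 hR hCls hκ hq1 hq2 hLag
  have hRa : R1 ≤ R := (le_max_left _ _).trans hR
  have hRb : R2 ≤ R := (le_max_right _ _).trans hR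
  have hR1' : 1 ≤ R := hR1.trans hRa
  have hR0 : 0 < R := by linarith
  have hL1 : 1 ≤ R ^ e := Real.one_le_rpow hR1' he
  have hpw : ∀ a b : ℝ, a ≤ b → R ^ a ≤ R ^ b := fun a b hab => Real.rpow_le_rpow_of_exponent_le hR1' hab
  obtain ⟨-, hLag1, hdet⟩ := hT1 G κ q (R ^ e) Y0 P0 hCls hκ hq1 hq2 hL1 hLag
  obtain ⟨hTv, hLag2, -⟩ := hT G κ q (R ^ e) Y0 P0 hCls hκ hq1 hq2 hL1 hLag
  refine ⟨ABMC_lag hLag1 (mul_le_mul_of_nonneg_right hCC1 (by linarith)), hdet, ?_⟩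
  -- the numbers
  obtain ⟨T, hTdef⟩ : ∃ T : ℝ, T = R ^ ζ1 := ⟨_, rfl⟩
  obtain ⟨ρ, hρdef⟩ : ∃ ρ : ℝ, ρ = R ^ (1 / 2 : ℝ) := ⟨_, rfl⟩
  obtain ⟨U, hUdef⟩ : ∃ U : ℝ, U = R ^ (Cg * ζ1) := ⟨_, rfl⟩
  have hρ0 : 0 < ρ := by rw [hρdef]; exact Real.rpow_pos_of_pos hR0 _
  have hρR : R = ρ ^ 2 := by
    rw [hρdef, ← Real.rpow_natCast, ← Real.rpow_mul hR0.le]
    norm_num
  have hΛT : Λ ≤ T := by
    rw [hTdef]
    refine (hR2 R hRb).trans (hpw _ _ ?_)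
    rw [div_le_iff₀ (by positivity)]
    nlinarith
  have hCK4 : 1 ≤ CK ^ 4 := one_le_pow₀ hCK
  have hCKT : 16 * CK ^ 4 ≤ T := hΛ1.trans hΛT
  have hT1' : 1 ≤ T := by linarith
  have hT0 : 0 < T := by linarith
  have hUT : T ≤ U := by
    rw [hTdef, hUdef]
    refine hpw _ _ ?_
    nlinarith
  have hU1 : 1 ≤ U := hT1'.trans hUT
  have hLT : R ^ e ≤ T := by
    rw [hTdef]
    refine hpw _ _ ?_
    nlinarith
  have hT6 : T ^ 6 ≤ ρ := by
    rw [hTdef, hρdef, ← Real.rpow_natCast, ← Real.rpow_mul hR0.le]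
    refine hpw _ _ ?_
    push_cast
    nlinarith
  have hσ : R ^ (-(1 / 2) + ζ1) = T / ρ := by
    rw [Real.rpow_add hR0, Real.rpow_neg hR0.le, ← hTdef, ← hρdef]
    ring
  have hN : R ^ (1 / 2 + Cg * ζ1) = ρ * U := by
    rw [Real.rpow_add hR0, ← hρdef, ← hUdef]
  have hρ1 : 1 ≤ ρ := (one_le_pow₀ hT1').trans hT6
  have hN1 : 1 ≤ ρ * U := one_le_mul_of_one_le_of_one_le hρ1 hU1
  have hCKle : CK ≤ CK ^ 4 := le_self_pow₀ hCK (by norm_num)
  obtain ⟨σ, hσd⟩ : ∃ σ : ℝ, σ = T / ρ := ⟨_, rfl⟩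
  have hσ0 : 0 < σ := by rw [hσd]; positivity
  obtain ⟨s, hs⟩ : ∃ s : ℝ, s = 2 * CK * σ := ⟨_, rfl⟩
  have hs0 : 0 < s := by rw [hs]; positivity
  obtain ⟨μ, hμ⟩ : ∃ μ : ℝ, μ = T ^ 6 / ρ := ⟨_, rfl⟩
  have hμ0 : 0 < μ := by rw [hμ]; positivity
  have hμ1 : μ ≤ 1 := by rw [hμ, div_le_one hρ0]; exact hT6
  have hσρ : σ * ρ = T := by rw [hσd]; field_simp
  have hμρ : μ * ρ = T ^ 6 := by rw [hμ]; field_simp
  have hT2 : T * T ≤ ρ := by
    have h1 : T ^ 2 ≤ T ^ 6 := pow_le_pow_right₀ hT1' (by norm_num)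
    have h2 : T * T = T ^ 2 := by ring
    rw [h2]; exact h1.trans hT6
  have hs1 : s ≤ 1 := by
    have h1 : s * ρ ≤ 1 * ρ := by
      rw [hs, mul_assoc, hσρ, one_mul]
      refine le_trans ?_ hT2
      refine mul_le_mul_of_nonneg_right ?_ hT0.le
      linarith
    exact le_of_mul_le_mul_right h1 hρ0
  have hNs : 1 ≤ (ρ * U) * s := by
    have h1 : (ρ * U) * s = 2 * CK * U * T := by
      rw [hs]
      calc ρ * U * (2 * CK * σ) = 2 * CK * U * (σ * ρ) := by ring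
        _ = _ := by rw [hσρ]
    rw [h1]
    have h2 : 1 ≤ 2 * CK := by linarith
    exact one_le_mul_of_one_le_of_one_le (one_le_mul_of_one_le_of_one_le h2 hU1) hT1'
  have hNμ' : CK ≤ μ * (ρ * U) := by
    have h1 : μ * (ρ * U) = T ^ 6 * U := by
      calc μ * (ρ * U) = (μ * ρ) * U := by ring
        _ = _ := by rw [hμρ]
    rw [h1]
    have h2 : T ≤ T ^ 6 := le_self_pow₀ hT1' (by norm_num)
    have h3 : T ^ 6 * 1 ≤ T ^ 6 * U := mul_le_mul_of_nonneg_left hU1 (by positivity)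
    linarith
  have hNμ : 1 ≤ (ρ * U) * μ := by linarith
  have hCKs : CK * s ≤ μ := by
    have h1 : (CK * s) * ρ ≤ μ * ρ := by
      rw [hμρ, hs]
      have h2 : CK * (2 * CK * σ) * ρ = 2 * CK ^ 2 * T := by
        calc CK * (2 * CK * σ) * ρ = 2 * CK ^ 2 * (σ * ρ) := by ring
          _ = _ := by rw [hσρ]
      rw [h2]
      have h3 : CK ^ 2 ≤ CK ^ 4 := pow_le_pow_right₀ hCK (by norm_num)
      have h4 : 2 * CK ^ 2 * T ≤ T * T := mul_le_mul_of_nonneg_right (by linarith) hT0.le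
      have h5 : T * T ≤ T ^ 6 := by
        have : T ^ 2 ≤ T ^ 6 := pow_le_pow_right₀ hT1' (by norm_num)
        linarith [sq T]
      linarith
    exact le_of_mul_le_mul_right h1 hρ0
  have hRs : R * (CK * (R ^ e) ^ 2) * s ^ 3 ≤ μ := by
    have h1 : (R * (CK * (R ^ e) ^ 2) * s ^ 3) * ρ ≤ μ * ρ := by
      rw [hμρ, hs, hρR]
      have h2 : (ρ ^ 2 * (CK * ((ρ ^ 2) ^ e) ^ 2) * (2 * CK * σ) ^ 3) * ρ = 8 * CK ^ 4 * ((ρ ^ 2) ^ e) ^ 2 * T ^ 3 := by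
        calc (ρ ^ 2 * (CK * ((ρ ^ 2) ^ e) ^ 2) * (2 * CK * σ) ^ 3) * ρ = 8 * CK ^ 4 * ((ρ ^ 2) ^ e) ^ 2 * (σ * ρ) ^ 3 := by ring
          _ = _ := by rw [hσρ]
      rw [h2, ← hρR]
      have h3 : (R ^ e) ^ 2 ≤ T ^ 2 := pow_le_pow_left₀ (by linarith) hLT 2
      have h4 : 8 * CK ^ 4 * (R ^ e) ^ 2 * T ^ 3 ≤ T * T ^ 2 * T ^ 3 := by
        refine mul_le_mul_of_nonneg_right ?_ (by positivity)
        exact mul_le_mul (by linarith) h3 (by positivity) hT0.le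
      calc 8 * CK ^ 4 * (R ^ e) ^ 2 * T ^ 3 ≤ T * T ^ 2 * T ^ 3 := h4
        _ = T ^ 6 := by ring
    exact le_of_mul_le_mul_right h1 hρ0
  have hζh : ζ1 ≤ 1 / 2 := by nlinarith
  obtain ⟨hX0s, hX0b, hX0d, hX01, -⟩ := hct ζ1 R hζ1.le hζh hR1'
  rw [hσ, ← hσd] at hX0b
  rw [hσ, ← hσd] at hX01
  rw [← hρdef] at hX0d
  -- the data in the new chart
  obtain ⟨M', hM'⟩ : ∃ M' : MC d, M' = Pf (lft κ) q Y0 P0 * (Yf (lft κ) q Y0 P0)⁻¹ := ⟨_, rfl⟩
  have hLag3 : Lag (R ^ (e + ζ1 / (2 * Cg))) (Yf (lft κ) q Y0 P0) (Pf (lft κ) q Y0 P0) := by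
    refine ABMC_lag hLag2 ?_
    rw [Real.rpow_add hR0, mul_comm]
    refine mul_le_mul_of_nonneg_left ?_ (by linarith)
    refine le_trans ?_ (hR2 R hRb)
    linarith
  obtain ⟨hE1, hE2⟩ := hGS R _ _ hRa hLag3
  rw [← hM'] at hE1 hE2 hTv ⊢
  rw [hσ, hN, ← hTdef, ← hσd] at hE1
  rw [hσ, ← hσd] at hE2
  have hcs : (1 / (2 * CK))⁻¹ * σ = s := by rw [hs, one_div, inv_inv]
  rw [hcs] at hE1 hE2
  -- the functions
  obtain ⟨E, hEd⟩ : ∃ E : V d → ℂ, E = fun v => Complex.exp (Complex.I * (R : ℂ) * (qf M' v / 2)) := ⟨_, rfl⟩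
  rw [← hEd] at hE1 hE2
  have hEs : ContDiff ℝ ∞ E := by
    rw [hEd]
    exact (Complex.contDiff_exp (𝕜 := ℝ)).comp (contDiff_const.mul ((ABMC_qf M').div_const 2))
  obtain ⟨gR, hgR⟩ : ∃ gR : V d → ℝ, gR = fun v => (Real.sqrt |(fderiv ℝ (fun y : V d => κ • y) (κ⁻¹ • (κ • q.1 + v))).det|)⁻¹ := ⟨_, rfl⟩
  obtain ⟨hR', hhR⟩ : ∃ hR' : V d → ℝ, hR' = fun v => (Real.sqrt (dens G (κ • q.1 + v)))⁻¹ := ⟨_, rfl⟩
  rw [← hgR, ← hhR] at hTv
  have hg0 : gR 0 = (Real.sqrt |(fderiv ℝ (fun y : V d => κ • y) q.1).det|)⁻¹ := by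
    rw [hgR]
    beta_reduce
    rw [add_zero, inv_smul_smul]
  rw [← hg0]
  obtain ⟨X1, hX1⟩ : ∃ X1 : V d → ℝ, X1 = fun v => ch (R ^ (1 - 2 * ζ1) * ‖κ⁻¹ • (κ • q.1 + v) - q.1‖ ^ 2) := ⟨_, rfl⟩
  obtain ⟨X2, hX2⟩ : ∃ X2 : V d → ℝ, X2 = fun v => ch (R ^ (1 - 2 * ζ1) * ‖v‖ ^ 2) := ⟨_, rfl⟩
  have hsm : ∀ γ : Γ, ContDiff ℝ ∞ fun y : V d => γ • y := hK.smooth
  have hτs : ContDiff ℝ ∞ (fun v : V d => κ⁻¹ • (κ • q.1 + v) - q.1) :=
    ((hsm κ⁻¹).comp (contDiff_const.add contDiff_id)).sub contDiff_const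
  have hσCK : σ < CK⁻¹ := by
    rw [lt_inv_comm₀ hσ0 hCK0, lt_inv_comm₀ hCK0 hσ0, ← one_div, lt_div_iff₀ hCK0]
    have h1 : 2 * CK * σ ≤ 1 := by rw [← hs]; exact hs1
    have h2 : 0 < CK * σ := by positivity
    linarith
  have hconn := ABMC_conn κ q.1 (hsm κ).continuous CK (fun v hv => (hTv v hv).2.2.2.1)
  -- supports
  have hX1far : ∀ v : V d, 1 ≤ ‖v‖ → X1 v = 0 := by
    intro v hv
    by_contra hne
    rw [hX1] at hne
    have h1 := hX0b (κ⁻¹ • (κ • q.1 + v) - q.1) hne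
    have h2 := hconn v hv
    linarith
  have hX1sup : ∀ v : V d, X1 v ≠ 0 → ‖v‖ ≤ CK * σ := by
    intro v hv
    have hv1 : ‖v‖ < 1 := by
      by_contra hc
      exact hv (hX1far v (not_lt.1 hc))
    rw [hX1] at hv
    have h1 := hX0b (κ⁻¹ • (κ • q.1 + v) - q.1) hv
    have h2 := (hTv v hv1.le).2.2.2.1
    rw [inv_mul_le_iff₀ hCK0] at h2
    exact h2.trans (mul_le_mul_of_nonneg_left h1 hCK0.le)
  have hX2sup : ∀ v : V d, X2 v ≠ 0 → ‖v‖ ≤ CK * σ := by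
    intro v hv
    rw [hX2] at hv
    have h1 := hX0b v hv
    have h2 : 1 * σ ≤ CK * σ := mul_le_mul_of_nonneg_right hCK hσ0.le
    linarith
  have hss : CK * σ < s := by
    rw [hs]
    have : 0 < CK * σ := by positivity
    linarith
  -- derivatives of the cut-offs
  have hX1s : ContDiff ℝ ∞ (fun v => ((X1 v : ℝ) : ℂ)) := by
    rw [hX1]
    exact hX0s.comp hτs
  have hX2s : ContDiff ℝ ∞ (fun v => ((X2 v : ℝ) : ℂ)) := by
    rw [hX2]
    exact hX0s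
  have hρN : ρ ≤ ρ * U := le_mul_of_one_le_right hρ0.le hU1
  have hX1d : ∀ j ≤ Kd, ∀ v : V d, ‖iteratedFDeriv ℝ j (fun v => ((X1 v : ℝ) : ℂ)) v‖ ≤ C1x * (ρ * U) ^ j := by
    intro j hj v
    by_cases hv : ‖v‖ ≤ 1
    · have h1 := ABMC_comp Kd (fun u : V d => ((ch (R ^ (1 - 2 * ζ1) * ‖u‖ ^ 2) : ℝ) : ℂ)) (fun v : V d => κ⁻¹ • (κ • q.1 + v) - q.1) hX0s hτs v
        C0 ρ CK hρ1 hC00.le hCK (fun i hi => hX0d i hi _) (fun i hi1 hi => by
          have h2 : ContDiffAt ℝ ∞ (fun v : V d => κ⁻¹ • (κ • q.1 + v)) v :=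
            ((hsm κ⁻¹).comp (contDiff_const.add contDiff_id)).contDiffAt
          rw [ABMC_subc h2 _ (by omega)]
          exact (hTv v hv).2.2.2.2.2.1 i (by omega)) j hj
      rw [← hC1x] at h1
      rw [hX1]
      exact h1.trans (mul_le_mul_of_nonneg_left (pow_le_pow_left₀ hρ0.le hρN j) hC1x0.le)
    · have h1 : (fun v => ((X1 v : ℝ) : ℂ)) =ᶠ[𝓝 v] fun _ => (0 : ℂ) := by
        have hopen : IsOpen {v : V d | 1 < ‖v‖} := isOpen_lt continuous_const continuous_norm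
        filter_upwards [hopen.mem_nhds (not_le.1 hv)] with w hw
        rw [hX1far w (le_of_lt hw), Complex.ofReal_zero]
      rw [(h1.iteratedFDeriv ℝ j).eq_of_nhds]
      have h3 : iteratedFDeriv ℝ j (fun _ : V d => (0 : ℂ)) v = 0 := by simp
      rw [h3, norm_zero]
      positivity
  have hX2d : ∀ j ≤ Kd, ∀ v : V d, ‖iteratedFDeriv ℝ j (fun v => ((X2 v : ℝ) : ℂ)) v‖ ≤ C0 * (ρ * U) ^ j := by
    intro j hj v
    rw [hX2]
    exact (hX0d j hj v).trans (mul_le_mul_of_nonneg_left (pow_le_pow_left₀ hρ0.le hρN j) hC00.le)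
  have hX12s : ContDiff ℝ ∞ (fun v => ((X1 v : ℝ) : ℂ) - ((X2 v : ℝ) : ℂ)) := hX1s.sub hX2s
  have hX12d : ∀ j ≤ Kd, ∀ v : V d, ‖iteratedFDeriv ℝ j (fun v => ((X1 v : ℝ) : ℂ) - ((X2 v : ℝ) : ℂ)) v‖ ≤ (C1x + C0) * (ρ * U) ^ j := by
    intro j hj v
    have h1 := iteratedFDeriv_sub_apply (i := j) (x := v) (hX1s.contDiffAt.of_le (by exact_mod_cast le_top)) (hX2s.contDiffAt.of_le (by exact_mod_cast le_top))
    have h2 : (fun v => ((X1 v : ℝ) : ℂ) - ((X2 v : ℝ) : ℂ)) = (fun v => ((X1 v : ℝ) : ℂ)) - fun v => ((X2 v : ℝ) : ℂ) := rfl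
    rw [h2, h1, add_mul]
    exact (norm_sub_le _ _).trans (add_le_add (hX1d j hj v) (hX2d j hj v))
  have hX120 : ∀ v : V d, ‖v‖ < 1 / (2 * CK) * σ ∨ s < ‖v‖ → ((X1 v : ℝ) : ℂ) - ((X2 v : ℝ) : ℂ) = 0 := by
    rintro v (hv | hv)
    · have h1 : CK * ‖v‖ ≤ σ / 2 := by
        have h2 : CK * ‖v‖ ≤ CK * (1 / (2 * CK) * σ) := mul_le_mul_of_nonneg_left hv.le hCK0.le
        have h3 : CK * (1 / (2 * CK) * σ) = σ / 2 := by field_simp
        linarith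
      have h4 : ‖v‖ ≤ σ / 2 := by
        have : 1 * ‖v‖ ≤ CK * ‖v‖ := mul_le_mul_of_nonneg_right hCK (norm_nonneg _)
        linarith
      have h5 : ‖v‖ ≤ 1 := by
        have h6 : σ ≤ s := by
          rw [hs]
          have : 1 * σ ≤ 2 * CK * σ := mul_le_mul_of_nonneg_right (by linarith) hσ0.le
          linarith
        linarith
      have h7 := (hTv v h5).2.2.2.2.1
      have h8 : X1 v = 1 := by rw [hX1]; exact hX01 _ (h7.trans h1)
      have h9 : X2 v = 1 := by rw [hX2]; exact hX01 _ h4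
      rw [h8, h9, sub_self]
    · have h1 : X1 v = 0 := by
        by_contra hc
        have := hX1sup v hc
        linarith
      have h2 : X2 v = 0 := by
        by_contra hc
        have := hX2sup v hc
        linarith
      rw [h1, h2, sub_self]
  -- the symbols
  have hRm1 : R ^ (-(1 : ℝ)) = R⁻¹ := Real.rpow_neg_one R
  rw [hRm1] at hE2
  have hψ : SyD Kd (ρ * U) μ s (fun v => Complex.I * (R : ℂ) * rk κ q (P0 * Y0⁻¹) M' v) := by
    refine ABMC_rk Kd (ρ * U) (CK * (R ^ e) ^ 2) μ s R _ hs0 hs1 hNs hR0.le (by positivity) ?_ hRs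
    intro v hv
    obtain ⟨h1, h2, h3, -⟩ := hTv v (hv.trans hs1)
    exact ⟨h1, h2, fun j hj => h3 j (by omega)⟩
  have hg : SyD Kd (ρ * U) μ s (fun v => ((gR v : ℝ) : ℂ) - ((gR 0 : ℝ) : ℂ)) := by
    refine ABMC_gsub Kd (ρ * U) CK μ s (fun v => ((gR v : ℝ) : ℂ)) hN1 hs0.le hCK0.le ?_ hCKs hNμ'
    intro v hv
    obtain ⟨-, -, -, -, -, -, -, h1, -, h2⟩ := hTv v (hv.trans hs1)
    obtain ⟨h3, h4⟩ := ABMC_real h1
    exact ⟨h3, fun j hj => by rw [h4]; exact (h2 j (by omega)).1⟩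
  have hh : SyD Kd (ρ * U) CK s (fun v => ((hR' v : ℝ) : ℂ)) := by
    intro v hv
    obtain ⟨-, -, -, -, -, -, -, -, h1, h2⟩ := hTv v (hv.trans hs1)
    obtain ⟨h3, h4⟩ := ABMC_real h1
    refine ⟨h3, fun j hj => ?_⟩
    rw [h4]
    exact ((h2 j (by omega)).2).trans (le_mul_of_one_le_right hCK0.le (one_le_pow₀ hN1))
  have hg0b : ‖((gR 0 : ℝ) : ℂ)‖ ≤ CK := by
    have h1 := (hTv 0 (by simp)).2.2.2.2.2.2.2.2.2 0 (by omega)
    have h2 := h1.1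
    rw [norm_iteratedFDeriv_zero] at h2
    rw [Complex.norm_real]
    exact h2
  obtain ⟨hB1, hB3⟩ := hP (ρ * U) μ T s _ (fun v => ((gR v : ℝ) : ℂ)) (fun v => ((hR' v : ℝ) : ℂ)) E ((gR 0 : ℝ) : ℂ)
    hN1 hμ0 hμ1 hNμ hT0.le hψ hg hg0b hh hE1
  -- the two products
  obtain ⟨hA1, hA1d⟩ := hcut (ρ * U) C1x (CP * T * μ) s (CK * σ) _ (fun v => ((X1 v : ℝ) : ℂ)) hN1 hC1x0.le (by positivity) hss hX1s
    (fun v hv => hX1sup v (fun h0 => hv (by rw [h0, Complex.ofReal_zero]))) hX1d hB1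
  have hYd := ABMC_Y Kd (ρ * U) (C1x + C0) R⁻¹ (1 / (2 * CK) * σ) s (fun v => ((X1 v : ℝ) : ℂ) - ((X2 v : ℝ) : ℂ)) E hN1 (by positivity)
    (by positivity) hX12s hEs hX12d hX120 hE2
  have hYs : ContDiff ℝ ∞ (fun v => (((X1 v : ℝ) : ℂ) - ((X2 v : ℝ) : ℂ)) * E v) := hX12s.mul hEs
  have hYsup : ∀ v, (((X1 v : ℝ) : ℂ) - ((X2 v : ℝ) : ℂ)) * E v ≠ 0 → ‖v‖ ≤ CK * σ := by
    intro v hv
    by_cases h1 : X1 v = 0
    · by_cases h2 : X2 v = 0
      · exact absurd (by rw [h1, h2, sub_self, zero_mul]) hv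
      · exact hX2sup v h2
    · exact hX1sup v h1
  obtain ⟨hA2, hA2d⟩ := hcut (ρ * U) (2 ^ Kd * (C1x + C0) * R⁻¹) CP s (CK * σ) _ (fun v => (((X1 v : ℝ) : ℂ) - ((X2 v : ℝ) : ℂ)) * E v) hN1
    (by positivity) hCP0.le hss hYs hYsup hYd hB3
  refine ⟨_, hA1.add hA2, ?_, ?_, ?_⟩
  · intro v hv
    have h1 : ‖v‖ ≤ CK * σ := by
      by_cases h2 : X1 v = 0
      · by_cases h3 : X2 v = 0
        · exact absurd (by
            rw [h2, h3, Complex.ofReal_zero, zero_mul, sub_self, zero_mul, zero_mul, add_zero]) hv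
        · exact hX2sup v h3
      · exact hX1sup v h2
    refine h1.trans ?_
    rw [Real.rpow_add hR0, Real.rpow_neg hR0.le, ← hρdef, hσd]
    have h2 : R ^ (2 * ζ1) ≤ R ^ (CC * ζ1) := hpw _ _ (mul_le_mul_of_nonneg_right (by linarith) hζ1.le)
    have h3 : R ^ (2 * ζ1) = T * T := by
      rw [two_mul, Real.rpow_add hR0, ← hTdef]
    rw [h3] at h2
    have h4 : CK * T ≤ T * T := mul_le_mul_of_nonneg_right (by linarith) hT0.le
    calc CK * (T / ρ) = ρ⁻¹ * (CK * T) := by ring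
      _ ≤ ρ⁻¹ * R ^ (CC * ζ1) := mul_le_mul_of_nonneg_left (h4.trans h2) (by positivity)
  · intro j hj v
    have h1 := iteratedFDeriv_add_apply (i := j) (x := v) (hA1.contDiffAt.of_le (by exact_mod_cast le_top)) (hA2.contDiffAt.of_le (by exact_mod_cast le_top))
    refine (le_of_eq (congrArg norm h1)).trans ?_
    refine (norm_add_le _ _).trans ((add_le_add (hA1d j hj v) (hA2d j hj v)).trans ?_)
    have h2 : R⁻¹ ≤ T * μ := by
      rw [inv_le_iff_one_le_mul₀ hR0, hρR]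
      have h3 : T * μ * ρ ^ 2 = T * T ^ 6 * ρ := by
        calc T * μ * ρ ^ 2 = T * (μ * ρ) * ρ := by ring
          _ = _ := by rw [hμρ]
      rw [h3]
      exact one_le_mul_of_one_le_of_one_le (one_le_mul_of_one_le_of_one_le hT1' (one_le_pow₀ hT1')) hρ1
    have h4 : CS * C1x * (CP * T * μ) + CS * (2 ^ Kd * (C1x + C0) * R⁻¹) * CP ≤ T * (T * μ) := by
      have h5 : CS * (2 ^ Kd * (C1x + C0) * R⁻¹) * CP ≤ CS * (2 ^ Kd * (C1x + C0)) * CP * (T * μ) := by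
        calc CS * (2 ^ Kd * (C1x + C0) * R⁻¹) * CP = CS * (2 ^ Kd * (C1x + C0)) * CP * R⁻¹ := by ring
          _ ≤ _ := mul_le_mul_of_nonneg_left h2 (by positivity)
      have h6 : (CS * C1x * CP + CS * (2 ^ Kd * (C1x + C0)) * CP) * (T * μ) ≤ T * (T * μ) :=
        mul_le_mul_of_nonneg_right (hΛ2.trans hΛT) (by positivity)
      linarith
    have h7 : T * (T * μ) ≤ R ^ (-(1 / 2) + CC * ζ1) := by
      rw [Real.rpow_add hR0, Real.rpow_neg hR0.le, ← hρdef, hμ]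
      have h8 : R ^ (8 * ζ1) ≤ R ^ (CC * ζ1) := hpw _ _ (mul_le_mul_of_nonneg_right (by linarith) hζ1.le)
      have h9 : R ^ (8 * ζ1) = T ^ 8 := by
        rw [hTdef, ← Real.rpow_natCast, ← Real.rpow_mul hR0.le]
        push_cast
        ring_nf
      rw [h9] at h8
      calc T * (T * (T ^ 6 / ρ)) = ρ⁻¹ * T ^ 8 := by ring
        _ ≤ _ := mul_le_mul_of_nonneg_left h8 (by positivity)
    have h10 : (ρ * U) ^ j ≤ (R ^ (1 / 2 + CC * ζ1)) ^ j := by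
      refine pow_le_pow_left₀ (by positivity) ?_ j
      rw [← hN]
      refine hpw _ _ ?_
      have : Cg * ζ1 ≤ CC * ζ1 := mul_le_mul_of_nonneg_right (by linarith) hζ1.le
      linarith
    calc CS * C1x * (CP * T * μ) * (ρ * U) ^ j + CS * (2 ^ Kd * (C1x + C0) * R⁻¹) * CP * (ρ * U) ^ j =
          (CS * C1x * (CP * T * μ) + CS * (2 ^ Kd * (C1x + C0) * R⁻¹) * CP) * (ρ * U) ^ j := by ring
      _ ≤ R ^ (-(1 / 2) + CC * ζ1) * (R ^ (1 / 2 + CC * ζ1)) ^ j :=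
          mul_le_mul (h4.trans h7) h10 (by positivity) (by positivity)
  · intro w
    obtain ⟨v, hv⟩ : ∃ v : V d, w = κ • q.1 + v := ⟨w - κ • q.1, by abel⟩
    subst hv
    have e0 : (lft κ q).1 = κ • q.1 := rfl
    unfold bm
    beta_reduce
    rw [e0]
    simp only [add_sub_cancel_left]
    by_cases hv1 : ‖v‖ ≤ 1
    · obtain ⟨-, -, -, -, -, -, hd, -⟩ := hTv v hv1
      have e1 : ch (R ^ (1 - 2 * ζ1) * ‖κ⁻¹ • (κ • q.1 + v) - q.1‖ ^ 2) / Real.sqrt (dens G (κ⁻¹ • (κ • q.1 + v))) = X1 v * (gR v * hR' v) := by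
        rw [div_eq_mul_inv, hd, hX1, hgR, hhR]
      have e2 : ch (R ^ (1 - 2 * ζ1) * ‖v‖ ^ 2) / Real.sqrt (dens G (κ • q.1 + v)) = X2 v * hR' v := by
        rw [div_eq_mul_inv, hX2, hhR]
      have e3 : ((⟪q.2, κ⁻¹ • (κ • q.1 + v) - q.1⟫_ℝ : ℝ) : ℂ) + qf (P0 * Y0⁻¹) (κ⁻¹ • (κ • q.1 + v) - q.1) / 2 =
          rk κ q (P0 * Y0⁻¹) M' v + (((⟪(lft κ q).2, v⟫_ℝ : ℝ) : ℂ) + qf M' v / 2) := by
        unfold rk
        ring
      rw [e1, e2, e3, ABMC_id, hEd]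
      push_cast
      rfl
    · have hv2 : 1 ≤ ‖v‖ := (not_le.1 hv1).le
      have e1 : X1 v = 0 := hX1far v hv2
      have e2 : X2 v = 0 := by
        by_contra hc
        have := hX2sup v hc
        linarith
      have e3 : ch (R ^ (1 - 2 * ζ1) * ‖κ⁻¹ • (κ • q.1 + v) - q.1‖ ^ 2) = 0 := by rw [hX1] at e1; exact e1
      have e4 : ch (R ^ (1 - 2 * ζ1) * ‖v‖ ^ 2) = 0 := by rw [hX2] at e2; exact e2
      rw [e1, e2, e3, e4]
      simp only [zero_div, Complex.ofReal_zero, zero_mul, mul_zero, sub_self, add_zero]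

end

end Pool.Agent.VD
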