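import Pool.Agent.helper11.VD.SpecC
import Pool.Agent.helper80.VD.SpecG
import Pool.Agent.helper34.VD.NGD

set_option autoImplicit false

open scoped ContDiff Topology InnerProductSpace
open MeasureTheory Filter Set

namespace Pool.Agent.VD

theorem POD_cfm {d : ℕ} (f : V d → ℝ) (G : V d → V d →L[ℝ] V d) (x u v : V d) :
    ⟪cfm f G x u, v⟫_ℝ = Real.exp (f x) * ⟪G x u, v⟫_ℝ := by
  rw [cfm, ContinuousLinearMap.smul_apply, real_inner_smul_left]

/-- Bounds of the derivatives of `G0` of order `≤ n` on a compact set. -/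
theorem POD_bdd {d : ℕ} {G : V d → V d →L[ℝ] V d} (hG : IsMetric G) {K : Set (V d)} (hK : IsCompact K) (n : ℕ) :
    ∃ M : ℝ, ∀ x ∈ K, ∀ i ≤ n, ‖iteratedFDeriv ℝ i G x‖ ≤ M := by
  induction n with
  | zero =>
    obtain ⟨M, hM⟩ := hK.exists_bound_of_continuousOn
      (hG.smooth.continuous_iteratedFDeriv (m := 0) (by exact_mod_cast le_top)).continuousOn
    refine ⟨M, ?_⟩
    intro x hx i hi
    have h0 : i = 0 := by omega
    rw [h0]; exact hM x hx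
  | succ n ih =>
    obtain ⟨M, hM⟩ := ih
    obtain ⟨M', hM'⟩ := hK.exists_bound_of_continuousOn
      (hG.smooth.continuous_iteratedFDeriv (m := n + 1) (by exact_mod_cast le_top)).continuousOn
    refine ⟨max M M', ?_⟩
    intro x hx i hi
    rcases Nat.lt_or_ge n i with h | h
    · have h0 : i = n + 1 := by omega
      rw [h0]; exact (hM' x hx).trans (le_max_right _ _)
    · exact (hM x hx i h).trans (le_max_left _ _)

theorem POD_bb (b : ℕ → ℝ) (n : ℕ) : ∃ M : ℝ, ∀ i ≤ n, b i ≤ M := by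
  induction n with
  | zero => exact ⟨b 0, fun i hi => by rw [Nat.le_zero.1 hi]⟩
  | succ n ih =>
    obtain ⟨M, hM⟩ := ih
    refine ⟨max M (b (n + 1)), fun i hi => ?_⟩
    rcases Nat.lt_or_ge n i with h | h
    · have h0 : i = n + 1 := by omega
      rw [h0]; exact le_max_right _ _
    · exact (hM i h).trans (le_max_left _ _)

/-- The reduction to orthogonal vectors. -/
theorem POD_red (hGRI : GRI_stmt) {d : ℕ} {G : V d → V d →L[ℝ] V d} (hG : IsMetric G) (x : V d) (k : ℝ)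
    (h : ∀ u v : V d, ⟪G x u, v⟫_ℝ = 0 → ⟪G x (Riem G x u v v), u⟫_ℝ ≤ -k * (⟪G x u, u⟫_ℝ * ⟪G x v, v⟫_ℝ)) (u v : V d) :
    ⟪G x (Riem G x u v v), u⟫_ℝ ≤ -k * (⟪G x u, u⟫_ℝ * ⟪G x v, v⟫_ℝ - ⟪G x u, v⟫_ℝ ^ 2) := by
  obtain ⟨hl1, -, -, hvv, -, horth, -⟩ := hGRI d G hG
  by_cases hv : v = 0
  · subst hv
    have h1 := hl1 x u 0 0 0 0
    have h2 : Riem G x u 0 0 = 0 := by
      have h3 := (hGRI d G hG).2.2.1 x u 0 0 0 1
      rw [one_smul, one_smul, add_zero] at h3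
      have h4 : Riem G x u 0 0 + 0 = Riem G x u 0 0 + Riem G x u 0 0 := by rw [add_zero]; exact h3
      exact (add_left_cancel h4).symm
    rw [h2]
    simp
  · have hpos := hG.pos x v hv
    have hsym : ∀ a b : V d, ⟪G x a, b⟫_ℝ = ⟪G x b, a⟫_ℝ := fun a b => by rw [hG.symm, real_inner_comm]
    obtain ⟨a, ha⟩ : ∃ a : ℝ, a * ⟪G x v, v⟫_ℝ = ⟪G x u, v⟫_ℝ := ⟨⟪G x u, v⟫_ℝ / ⟪G x v, v⟫_ℝ, by field_simp⟩
    have ho : ⟪G x (u + (-a) • v), v⟫_ℝ = 0 := by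
      rw [map_add, map_smul, inner_add_left, real_inner_smul_left]
      linarith
    have h1 := h (u + (-a) • v) v ho
    have h2 : Riem G x (u + (-a) • v) v v = Riem G x u v v := by
      rw [hl1 x u v v v (-a), hvv, smul_zero, add_zero]
    have h3 : ⟪G x (Riem G x u v v), u + (-a) • v⟫_ℝ = ⟪G x (Riem G x u v v), u⟫_ℝ := by
      rw [inner_add_right, real_inner_smul_right, horth, mul_zero, add_zero]
    have h4 : ⟪G x (u + (-a) • v), u + (-a) • v⟫_ℝ * ⟪G x v, v⟫_ℝ =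
        ⟪G x u, u⟫_ℝ * ⟪G x v, v⟫_ℝ - ⟪G x u, v⟫_ℝ ^ 2 := by
      have h5 : ⟪G x (u + (-a) • v), u + (-a) • v⟫_ℝ = ⟪G x u, u⟫_ℝ - a * ⟪G x u, v⟫_ℝ := by
        rw [inner_add_right, real_inner_smul_right, ho, mul_zero, add_zero, map_add, map_smul, inner_add_left,
          real_inner_smul_left, hsym v u]
        ring
      rw [h5, ← ha]
      ring
    rw [h2, h3, h4] at h1
    exact h1

theorem POD_proof (hGRI : GRI_stmt) (hGNK : GNK_stmt) (hRCN : RCN_stmt) (hCFC : CFC_stmt) : POD_stmt := by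
  intro d Γ _ _ K G0 b hK hD hG0
  obtain ⟨hC1, hC2⟩ := hCFC d
  -- the bounds
  have hball : ∀ m : ℕ, IsCompact (Metric.closedBall (0 : V d) m) := fun m => isCompact_closedBall _ _
  have hmem : ∀ (m : ℕ) (x : V d), ‖x‖ ≤ m → x ∈ Metric.closedBall (0 : V d) m := by
    intro m x hx
    rw [Metric.mem_closedBall, dist_zero_right]; exact hx
  have hCon : ∀ m n : ℕ, ∃ C : ℝ, 1 ≤ C ∧ ∀ (f f' : V d → ℝ) (x : V d) (s : ℝ), ‖x‖ ≤ m → ContDiff ℝ ∞ f → ContDiff ℝ ∞ f' →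
      0 ≤ s → s ≤ 1 → (∀ i, ‖iteratedFDeriv ℝ i f x‖ ≤ b m i ∧ ‖iteratedFDeriv ℝ i f' x‖ ≤ b m i) →
      ‖iteratedFDeriv ℝ n (cfm f G0) x‖ ≤ C ∧ ((∀ i ≤ n, ‖iteratedFDeriv ℝ i (fun y => f y - f' y) x‖ ≤ s) →
        ‖iteratedFDeriv ℝ n (fun y => cfm f G0 y - cfm f' G0 y) x‖ ≤ C * s) := by
    intro m n
    obtain ⟨M1, hM1⟩ := POD_bdd hG0 (hball m) n
    obtain ⟨M2, hM2⟩ := POD_bb (b m) n
    obtain ⟨C, hC, hC'⟩ := hC2 n (max 1 (max M1 M2)) (le_max_left _ _)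
    refine ⟨C, hC, ?_⟩
    intro f f' x s hx hf hf' hs0 hs1 hb
    refine hC' f f' G0 x s hf hf' hG0 hs0 hs1 ?_
    intro i hi
    have e1 : M1 ≤ max 1 (max M1 M2) := (le_max_left _ _).trans (le_max_right _ _)
    have e2 : M2 ≤ max 1 (max M1 M2) := (le_max_right _ _).trans (le_max_right _ _)
    exact ⟨((hb i).1.trans (hM2 i hi)).trans e2, ((hb i).2.trans (hM2 i hi)).trans e2,
      (hM1 x (hmem m x hx) i hi).trans e1⟩
  choose CC hCC1 hCC using hCon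
  have hlow : ∀ m : ℕ, ∃ c : ℝ, 0 < c ∧ ∀ x : V d, ‖x‖ ≤ m → ∀ u : V d, c * ‖u‖ ^ 2 ≤ ⟪G0 x u, u⟫_ℝ := by
    intro m
    obtain ⟨c, hc, hc'⟩ := NGD_lb hG0 (hball m)
    exact ⟨c, hc, fun x hx u => hc' x (hmem m x hx) u⟩
  choose c hc hcl using hlow
  obtain ⟨B, hB⟩ : ∃ B : ℕ → ℕ → ℝ, ∀ m n, B m n = max (CC m n) (Real.exp (b m 0) * (c m)⁻¹) := ⟨_, fun _ _ => rfl⟩
  refine ⟨B, ?_⟩
  intro f hf hfi hfb hneg
  have hG : IsMetric (cfm f G0) := hC1 f G0 hf hG0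
  obtain ⟨k0, hk0, hk01, hk0K⟩ := hGNK d K (cfm f G0) hK.compact hG hneg
  -- the lower bound for a member of the family
  have hlo : ∀ f' : V d → ℝ, (∀ (m n : ℕ) (x : V d), ‖x‖ ≤ m → ‖iteratedFDeriv ℝ n f' x‖ ≤ b m n) →
      ∀ (m : ℕ) (x u : V d), ‖x‖ ≤ m → ‖u‖ ^ 2 ≤ (Real.exp (b m 0) * (c m)⁻¹) * ⟪cfm f' G0 x u, u⟫_ℝ := by
    intro f' hf'b m x u hx
    rw [POD_cfm]
    have h1 := hcl m x hx u
    have h2 := hf'b m 0 x hx
    rw [norm_iteratedFDeriv_zero, Real.norm_eq_abs] at h2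
    have h3 : 1 ≤ Real.exp (b m 0) * Real.exp (f' x) := by
      rw [← Real.exp_add]
      exact Real.one_le_exp (by have := (abs_le.1 h2).1; linarith)
    have h4 : 0 < c m := hc m
    have h5 : 0 ≤ ⟪G0 x u, u⟫_ℝ := le_trans (by positivity) h1
    have h6 : ‖u‖ ^ 2 ≤ (c m)⁻¹ * ⟪G0 x u, u⟫_ℝ := by
      rw [inv_mul_eq_div, le_div_iff₀ h4]
      linarith
    have h7 : 0 ≤ (c m)⁻¹ * ⟪G0 x u, u⟫_ℝ := by positivity
    calc ‖u‖ ^ 2 ≤ 1 * ((c m)⁻¹ * ⟪G0 x u, u⟫_ℝ) := by rw [one_mul]; exact h6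
      _ ≤ (Real.exp (b m 0) * Real.exp (f' x)) * ((c m)⁻¹ * ⟪G0 x u, u⟫_ℝ) := mul_le_mul_of_nonneg_right h3 h7
      _ = _ := by ring
  -- a ball which contains `K`
  obtain ⟨r, hr⟩ := hK.compact.isBounded.exists_norm_le
  obtain ⟨m, hm⟩ := exists_nat_ge r
  have hKm : ∀ x ∈ K, ‖x‖ ≤ m := fun x hx => (hr x hx).trans hm
  obtain ⟨β, hβ⟩ : ∃ β : ℝ, β = Real.exp (b m 0) * (c m)⁻¹ := ⟨_, rfl⟩
  have hβ0 : 0 < β := by rw [hβ]; have := hc m; positivity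
  obtain ⟨A, hA⟩ : ∃ A : ℝ, A = max (CC m 0) (max (CC m 1) (CC m 2)) := ⟨_, rfl⟩
  have hA1 : 1 ≤ A := by rw [hA]; exact (hCC1 m 0).trans (le_max_left _ _)
  have hAi : ∀ n ≤ 2, CC m n ≤ A := by
    intro n hn
    rw [hA]
    interval_cases n
    · exact le_max_left _ _
    · exact (le_max_left _ _).trans (le_max_right _ _)
    · exact (le_max_right _ _).trans (le_max_right _ _)
  obtain ⟨M, hM⟩ : ∃ M : ℝ, M = max A β := ⟨_, rfl⟩
  have hMA : A ≤ M := by rw [hM]; exact le_max_left _ _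
  have hMβ : β ≤ M := by rw [hM]; exact le_max_right _ _
  have hM1 : 1 ≤ M := hA1.trans hMA
  obtain ⟨C, hC, hCR⟩ := hRCN d M hM1
  have hC0 : 0 < C := by linarith
  have hM0 : 0 < M := by linarith
  have hA0 : 0 < A := by linarith
  -- the constants
  obtain ⟨δ, hδ⟩ : ∃ δ : ℝ, δ = min 1 (k0 / (2 * β ^ 2 * (k0 + C))) := ⟨_, rfl⟩
  have hδ0 : 0 < δ := by rw [hδ]; exact lt_min one_pos (by positivity)
  have hδ1 : δ ≤ 1 := by rw [hδ]; exact min_le_left _ _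
  have hδ2 : (k0 + C) * δ ≤ k0 / (2 * β ^ 2) := by
    have h1 : δ ≤ k0 / (2 * β ^ 2 * (k0 + C)) := by rw [hδ]; exact min_le_right _ _
    have h2 := mul_le_mul_of_nonneg_left h1 (show 0 ≤ k0 + C by linarith)
    have h3 : (k0 + C) * (k0 / (2 * β ^ 2 * (k0 + C))) = k0 / (2 * β ^ 2) := by field_simp
    rw [h3] at h2
    exact h2
  obtain ⟨q, hq⟩ := exists_nat_ge (max 1 (2 * β ^ 2 * M ^ 2 / k0))
  have hq1 : (1 : ℝ) ≤ q := (le_max_left _ _).trans hq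
  have hq2 : 2 * β ^ 2 * M ^ 2 / k0 ≤ q := (le_max_right _ _).trans hq
  have hq0 : (0 : ℝ) < q := by linarith
  have hqk : (1 : ℝ) / q ≤ k0 / (2 * β ^ 2 * M ^ 2) := by
    rw [div_le_iff₀ hk0] at hq2
    rw [div_le_div_iff₀ hq0 (by positivity)]
    linarith
  refine ⟨q, δ / A, by exact_mod_cast hq1, by positivity, ?_⟩
  intro f' hf' hf'i hf'b hclose
  have hG' : IsMetric (cfm f' G0) := hC1 f' G0 hf' hG0
  refine ⟨hG', ?_, by positivity, ?_, ?_, ?_⟩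
  · intro γ x u v
    rw [POD_cfm, POD_cfm, hD.isom, hf'i γ x]
  · intro n x u hx
    have h1 := hlo f' hf'b n x u hx
    have h2 : Real.exp (b n 0) * (c n)⁻¹ ≤ B n 0 := by rw [hB]; exact le_max_right _ _
    have h3 : 0 ≤ ⟪cfm f' G0 x u, u⟫_ℝ := by
      by_cases hu : u = 0
      · rw [hu]; simp
      · exact (hG'.pos x u hu).le
    exact h1.trans (mul_le_mul_of_nonneg_right h2 h3)
  · intro n i x hx
    have h1 := (hCC n i f' f' x 0 hx hf' hf' le_rfl zero_le_one (fun j => ⟨hf'b n j x hx, hf'b n j x hx⟩)).1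
    refine h1.trans ?_
    rw [hB]; exact le_max_left _ _
  · intro x hx u v
    have hxm := hKm x hx
    have hs0 : 0 ≤ δ / A := by positivity
    have hs1 : δ / A ≤ 1 := by
      rw [div_le_one hA0]; linarith
    have hder : ∀ n ≤ 2, (‖iteratedFDeriv ℝ n (cfm f G0) x‖ ≤ A ∧ ‖iteratedFDeriv ℝ n (cfm f' G0) x‖ ≤ A) ∧
        ‖iteratedFDeriv ℝ n (fun y => cfm f G0 y - cfm f' G0 y) x‖ ≤ δ := by
      intro n hn
      have h1 := hCC m n f f' x (δ / A) hxm hf hf' hs0 hs1 (fun j => ⟨hfb m j x hxm, hf'b m j x hxm⟩)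
      have h2 := hCC m n f' f x (δ / A) hxm hf' hf hs0 hs1 (fun j => ⟨hf'b m j x hxm, hfb m j x hxm⟩)
      refine ⟨⟨h1.1.trans (hAi n hn), h2.1.trans (hAi n hn)⟩, ?_⟩
      have h3 := h1.2 (fun i hi => hclose i (hi.trans hn) x hx)
      refine h3.trans ?_
      calc CC m n * (δ / A) ≤ A * (δ / A) := mul_le_mul_of_nonneg_right (hAi n hn) hs0
        _ = δ := by field_simp
    have hinvb : ∀ g : V d → ℝ, IsMetric (cfm g G0) → (∀ (m n : ℕ) (x : V d), ‖x‖ ≤ m → ‖iteratedFDeriv ℝ n g x‖ ≤ b m n) →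
        ‖(cfm g G0 x).inverse‖ ≤ M := by
      intro g hg hgb
      have h1 := NGD_invb hg x β⁻¹ (by positivity) (by
        intro w
        have h2 := hlo g hgb m x w hxm
        rw [← hβ] at h2
        rw [inv_mul_eq_div, div_le_iff₀ hβ0]
        linarith)
      rw [inv_inv] at h1
      exact h1.trans hMβ
    have hcmp := hCR (cfm f G0) (cfm f' G0) x δ hG hG' hδ0.le
      (fun n hn => ⟨(hder n hn).1.1.trans hMA, (hder n hn).1.2.trans hMA⟩) (hinvb f hG hfb) (hinvb f' hG' hf'b)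
      (fun n hn => (hder n hn).2)
    -- operator bounds
    have hop : ‖cfm f G0 x - cfm f' G0 x‖ ≤ δ := by
      have h1 := (hder 0 (by norm_num)).2
      rw [norm_iteratedFDeriv_zero] at h1
      exact h1
    have hop' : ‖cfm f' G0 x‖ ≤ M := by
      have h1 := (hder 0 (by norm_num)).1.2
      rw [norm_iteratedFDeriv_zero] at h1
      exact h1.trans hMA
    refine POD_red hGRI hG' x (1 / q) ?_ u v
    clear u v
    intro u v huv
    have hcm := (hcmp u v).1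
    have hkk := hk0K x hx u v
    obtain ⟨g11, e11⟩ : ∃ t : ℝ, t = ⟪cfm f G0 x u, u⟫_ℝ := ⟨_, rfl⟩
    obtain ⟨g22, e22⟩ : ∃ t : ℝ, t = ⟪cfm f G0 x v, v⟫_ℝ := ⟨_, rfl⟩
    obtain ⟨g12, e12⟩ : ∃ t : ℝ, t = ⟪cfm f G0 x u, v⟫_ℝ := ⟨_, rfl⟩
    obtain ⟨a, ea⟩ : ∃ t : ℝ, t = ‖u‖ ^ 2 := ⟨_, rfl⟩
    obtain ⟨b', eb⟩ : ∃ t : ℝ, t = ‖v‖ ^ 2 := ⟨_, rfl⟩
    have ha0 : 0 ≤ a := by rw [ea]; positivity
    have hb0 : 0 ≤ b' := by rw [eb]; positivity
    have l1 : a ≤ β * g11 := by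
      rw [ea, e11, hβ]; exact hlo f hfb m x u hxm
    have l2 : b' ≤ β * g22 := by
      rw [eb, e22, hβ]; exact hlo f hfb m x v hxm
    have l3 : g12 ^ 2 ≤ δ ^ 2 * (a * b') := by
      have h1 : g12 = ⟪(cfm f G0 x - cfm f' G0 x) u, v⟫_ℝ := by
        rw [ContinuousLinearMap.sub_apply, inner_sub_left, huv, sub_zero, e12]
      have h2 : |g12| ≤ δ * ‖u‖ * ‖v‖ := by
        rw [h1]
        refine (abs_real_inner_le_norm _ _).trans ?_
        refine mul_le_mul_of_nonneg_right ?_ (norm_nonneg _)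
        exact ((cfm f G0 x - cfm f' G0 x).le_opNorm u).trans (mul_le_mul_of_nonneg_right hop (norm_nonneg _))
      have h3 := pow_le_pow_left₀ (abs_nonneg g12) h2 2
      rw [sq_abs] at h3
      refine h3.trans (le_of_eq ?_)
      rw [ea, eb]; ring
    have l4 : a * b' ≤ β ^ 2 * (g11 * g22) := by
      have h1 : a * b' ≤ (β * g11) * (β * g22) := mul_le_mul l1 l2 hb0 (ha0.trans l1)
      linarith
    rw [← e11, ← e22, ← e12] at hkk
    rw [← ea, ← eb] at hcm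
    have l5 := (abs_le.1 hcm).1
    -- `F' ≤ F + C δ a b ≤ - k0 (g11 g22 - g12²) + C δ a b`
    have hab : 0 ≤ a * b' := mul_nonneg ha0 hb0
    have l6 : ⟪cfm f' G0 x (Riem (cfm f' G0) x u v v), u⟫_ℝ ≤ -(k0 / (2 * β ^ 2)) * (a * b') := by
      have h1 : ⟪cfm f' G0 x (Riem (cfm f' G0) x u v v), u⟫_ℝ ≤ -k0 * (g11 * g22 - g12 ^ 2) + C * δ * (a * b') := by
        linarith
      have h2 : a * b' / β ^ 2 ≤ g11 * g22 := by
        rw [div_le_iff₀ (by positivity)]; linarith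
      have h3 : k0 * (a * b' / β ^ 2) ≤ k0 * (g11 * g22) := mul_le_mul_of_nonneg_left h2 hk0.le
      have h4 : k0 * g12 ^ 2 ≤ k0 * (δ * (a * b')) := by
        refine mul_le_mul_of_nonneg_left (l3.trans ?_) hk0.le
        refine mul_le_mul_of_nonneg_right ?_ hab
        nlinarith
      have h5 : (k0 + C) * δ * (a * b') ≤ k0 / (2 * β ^ 2) * (a * b') := mul_le_mul_of_nonneg_right hδ2 hab
      have h6 : k0 * (a * b' / β ^ 2) = 2 * (k0 / (2 * β ^ 2) * (a * b')) := by field_simp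
      linarith
    have l7 : ⟪cfm f' G0 x u, u⟫_ℝ * ⟪cfm f' G0 x v, v⟫_ℝ ≤ M ^ 2 * (a * b') := by
      have h1 : ∀ w : V d, ⟪cfm f' G0 x w, w⟫_ℝ ≤ M * ‖w‖ ^ 2 := by
        intro w
        refine (real_inner_le_norm _ _).trans ?_
        have h2 := mul_le_mul_of_nonneg_right (((cfm f' G0 x).le_opNorm w).trans
          (mul_le_mul_of_nonneg_right hop' (norm_nonneg w))) (norm_nonneg w)
        refine h2.trans (le_of_eq ?_)
        ring
      have h3 : ∀ w : V d, 0 ≤ ⟪cfm f' G0 x w, w⟫_ℝ := by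
        intro w
        by_cases hw : w = 0
        · rw [hw]; simp
        · exact (hG'.pos x w hw).le
      have h4 := mul_le_mul (h1 u) (h1 v) (h3 v) (by positivity)
      rw [← ea, ← eb] at h4
      refine h4.trans (le_of_eq ?_)
      ring
    have l8 : 0 ≤ M ^ 2 * (a * b') := by positivity
    have l9 : 1 / (q : ℝ) * (⟪cfm f' G0 x u, u⟫_ℝ * ⟪cfm f' G0 x v, v⟫_ℝ) ≤ k0 / (2 * β ^ 2) * (a * b') := by
      have h1 := mul_le_mul_of_nonneg_left l7 (show 0 ≤ 1 / (q : ℝ) by positivity)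
      have h2 := mul_le_mul_of_nonneg_right hqk l8
      have h3 : k0 / (2 * β ^ 2 * M ^ 2) * (M ^ 2 * (a * b')) = k0 / (2 * β ^ 2) * (a * b') := by field_simp
      linarith
    linarith

end Pool.Agent.VD
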